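import Pool.Agent.U541.TC.Main
import Pool.Agent.N759.CFr.Tensor

set_option autoImplicit false

/-! # Products of linear forms of tensor products: continued fractions and limit forms -/

open Filter Topology Matrix
open scoped Kronecker

namespace Pool.Agent.U541.TC

open Pool.Agent.N759.CFr

/-- arbitrarily long initial blocks of the expansion of `ξ` occur, directly or reversed, in the
expansion of `α` (after the first digit) -/
def Occ (ξ α : ℝ) : Prop :=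
  (∀ ℓ : ℕ, ∃ i : ℕ, 1 ≤ i ∧ ∀ r < ℓ, pq ξ r = pq α (i + r)) ∨
  (∀ ℓ : ℕ, ∃ i : ℕ, 1 ≤ i ∧ ∀ r < ℓ, pq ξ r = pq α (i + (ℓ - 1 - r)))

/-- the normalised local frame -/
noncomputable def fr (α : ℝ) (g : Matrix (Fin 2) (Fin 2) ℝ) (m : ℕ) : Matrix (Fin 2) (Fin 2) ℝ :=
  Matrix.diagonal ![BB α m, (BB α m)⁻¹] * (g * (CC α m).map (Int.cast : ℤ → ℝ))

lemma fr_00 (α : ℝ) (g : Matrix (Fin 2) (Fin 2) ℝ) (m : ℕ) :
    fr α g m 0 0 = BB α m * lu α (g 0 0) (g 0 1) m := by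
  rw [fr, ← (loc_eq α (g 0 0) (g 0 1) m).1]
  simp [Matrix.mul_apply, Fin.sum_univ_two]

lemma fr_01 (α : ℝ) (g : Matrix (Fin 2) (Fin 2) ℝ) (m : ℕ) :
    fr α g m 0 1 = BB α m * lv α (g 0 0) (g 0 1) m := by
  rw [fr, ← (loc_eq α (g 0 0) (g 0 1) m).2]
  simp [Matrix.mul_apply, Fin.sum_univ_two]

lemma fr_10 (α : ℝ) (g : Matrix (Fin 2) (Fin 2) ℝ) (m : ℕ) :
    fr α g m 1 0 = (BB α m)⁻¹ * lu α (g 1 0) (g 1 1) m := by
  rw [fr, ← (loc_eq α (g 1 0) (g 1 1) m).1]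
  simp [Matrix.mul_apply, Fin.sum_univ_two]

lemma fr_11 (α : ℝ) (g : Matrix (Fin 2) (Fin 2) ℝ) (m : ℕ) :
    fr α g m 1 1 = (BB α m)⁻¹ * lv α (g 1 0) (g 1 1) m := by
  rw [fr, ← (loc_eq α (g 1 0) (g 1 1) m).2]
  simp [Matrix.mul_apply, Fin.sum_univ_two]

/-- the frames are bounded -/
lemma fr_bound {α : ℝ} (hα : Irrational α) (g : Matrix (Fin 2) (Fin 2) ℝ)
    (hg : g 0 0 = α * g 0 1) (m : ℕ) (i j : Fin 2) :
    |fr α g (m + 1) i j| ≤ 2 * |g 0 1| + cst α g := by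
  have hB : 0 < BB α (m + 1) := BB_pos hα _
  have hx : 1 < cq α (m + 1) := one_lt_cq hα m
  have hc := cst_nonneg α g
  have hk : |lv α (g 0 0) (g 0 1) (m + 1)| * (BB α (m + 1) * cq α (m + 1)) ≤ 2 * |g 0 1| := by
    rw [hg]; exact key_le hα _ _
  have hg0 := abs_nonneg (g 0 1)
  have hv0 := abs_nonneg (lv α (g 0 0) (g 0 1) (m + 1))
  have hv1 : |lv α (g 1 0) (g 1 1) (m + 1)| ≤ cst α g * BB α (m + 1) := abs_lv_le hα _ _ _
  have hu1 : |lu α (g 1 0) (g 1 1) (m + 1)| ≤ cst α g * BB α (m + 1) := abs_lu_le hα _ _ _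
  fin_cases i <;> fin_cases j
  · change |fr α g (m + 1) 0 0| ≤ _
    rw [fr_00]
    have hu0 : lu α (g 0 0) (g 0 1) (m + 1) = cq α (m + 1) * lv α (g 0 0) (g 0 1) (m + 1) := by
      rw [hg]; exact lu_eq hα _ _
    rw [hu0, abs_mul, abs_mul, abs_of_pos hB, abs_of_pos (by linarith : 0 < cq α (m + 1))]
    nlinarith
  · change |fr α g (m + 1) 0 1| ≤ _
    rw [fr_01, abs_mul, abs_of_pos hB]
    have h1 : BB α (m + 1) * |lv α (g 0 0) (g 0 1) (m + 1)|
        ≤ |lv α (g 0 0) (g 0 1) (m + 1)| * (BB α (m + 1) * cq α (m + 1)) := by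
      have : 0 ≤ BB α (m + 1) * |lv α (g 0 0) (g 0 1) (m + 1)| := by positivity
      nlinarith
    linarith
  · change |fr α g (m + 1) 1 0| ≤ _
    rw [fr_10, abs_mul, abs_of_pos (inv_pos.2 hB), inv_mul_le_iff₀ hB]
    nlinarith
  · change |fr α g (m + 1) 1 1| ≤ _
    rw [fr_11, abs_mul, abs_of_pos (inv_pos.2 hB), inv_mul_le_iff₀ hB]
    nlinarith

/-- subsequences of frames converge to limit forms -/
lemma fr_limit {α : ℝ} (hα : Irrational α) (g : Matrix (Fin 2) (Fin 2) ℝ)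
    (hg : g 0 0 = α * g 0 1) (m : ℕ → ℕ) :
    ∃ (k : Matrix (Fin 2) (Fin 2) ℝ) (φ : ℕ → ℕ), StrictMono φ ∧ IsLimit g k ∧
      Tendsto (fun s => fr α g (m (φ s) + 1)) atTop (𝓝 k) := by
  set K : Set (Matrix (Fin 2) (Fin 2) ℝ) :=
    Set.pi Set.univ fun _ => Set.pi Set.univ fun _ =>
      Set.Icc (-(2 * |g 0 1| + cst α g)) (2 * |g 0 1| + cst α g) with hK
  have hKc : IsCompact K := isCompact_univ_pi fun _ => isCompact_univ_pi fun _ => isCompact_Icc
  have hmem : ∀ s, fr α g (m s + 1) ∈ K := by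
    intro s
    rw [hK]
    refine fun i _ => fun j _ => ?_
    exact abs_le.1 (fr_bound hα g hg (m s) i j)
  haveI : FirstCountableTopology (Matrix (Fin 2) (Fin 2) ℝ) :=
    inferInstanceAs (FirstCountableTopology (Fin 2 → Fin 2 → ℝ))
  obtain ⟨k, _, φ, hφ, hlim⟩ := hKc.tendsto_subseq hmem
  refine ⟨k, φ, hφ, ⟨fun s => ![BB α (m (φ s) + 1), (BB α (m (φ s) + 1))⁻¹],
    fun s => CC α (m (φ s) + 1), fun s => ?_, fun s => ?_, hlim⟩, hlim⟩
  · rw [Fin.prod_univ_two]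
    simp only [Matrix.cons_val_zero, Matrix.cons_val_one]
    rw [mul_inv_cancel₀ (BB_pos hα _).ne', abs_one]
  · rw [Int.isUnit_iff_abs_eq]
    exact det_CC α _

lemma elem_tendsto {u : ℕ → Matrix (Fin 2) (Fin 2) ℝ} {k : Matrix (Fin 2) (Fin 2) ℝ}
    (h : Tendsto u atTop (𝓝 k)) (i j : Fin 2) : Tendsto (fun s => u s i j) atTop (𝓝 (k i j)) :=
  ((continuous_id.matrix_elem i j).tendsto k).comp h

/-- direct blocks -/
lemma direct_row {α ξ : ℝ} (hα : Irrational α) (hξ : Irrational ξ)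
    (g : Matrix (Fin 2) (Fin 2) ℝ) (hg : g 0 0 = α * g 0 1)
    (h : ∀ ℓ : ℕ, ∃ i : ℕ, 1 ≤ i ∧ ∀ r < ℓ, pq ξ r = pq α (i + r)) :
    ∃ k, IsLimit g k ∧ k 0 0 = ξ * k 0 1 := by
  choose i hi1 hi2 using fun s : ℕ => h (2 * s + 1)
  obtain ⟨k, φ, hφ, hk, hlim⟩ := fr_limit hα g hg (fun s => i s - 1)
  refine ⟨k, hk, ?_⟩
  have e : ∀ s, i s - 1 + 1 = i s := fun s => Nat.sub_add_cancel (hi1 s)
  simp only [e] at hlim
  have h1 : Tendsto (fun s => cq α (i s)) atTop (𝓝 ξ) := by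
    have h2 : ∀ s, |cq α (i s) - ξ| ≤ (1 / 2) ^ s := by
      intro s
      rw [abs_sub_comm]
      refine diff_le hξ (irr_cq hα _) s fun r hr => ?_
      rw [← pq_add]
      exact hi2 s r hr
    rw [tendsto_iff_norm_sub_tendsto_zero]
    refine squeeze_zero (fun _ => norm_nonneg _) h2 ?_
    exact tendsto_pow_atTop_nhds_zero_of_lt_one (by norm_num) (by norm_num)
  have h3 := elem_tendsto hlim 0 0
  have h4 := elem_tendsto hlim 0 1
  have h5 : Tendsto (fun s => cq α (i (φ s)) * fr α g (i (φ s)) 0 1) atTop (𝓝 (ξ * k 0 1)) :=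
    (h1.comp hφ.tendsto_atTop).mul h4
  have h6 : ∀ s, cq α (i (φ s)) * fr α g (i (φ s)) 0 1 = fr α g (i (φ s)) 0 0 := by
    intro s
    have hu0 : lu α (g 0 0) (g 0 1) (i (φ s))
        = cq α (i (φ s)) * lv α (g 0 0) (g 0 1) (i (φ s)) := by
      rw [hg]; exact lu_eq hα _ _
    rw [fr_00, fr_01, hu0]
    ring
  simp only [h6] at h5
  exact tendsto_nhds_unique h3 h5

/-- reversed blocks -/
lemma reversed_row {α ξ : ℝ} (hα : Irrational α) (hξ : Irrational ξ)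
    (g : Matrix (Fin 2) (Fin 2) ℝ) (hg : g 0 0 = α * g 0 1)
    (h : ∀ ℓ : ℕ, ∃ i : ℕ, 1 ≤ i ∧ ∀ r < ℓ, pq ξ r = pq α (i + (ℓ - 1 - r))) :
    ∃ k, IsLimit g k ∧ k 1 1 = -(ξ * k 1 0) := by
  choose i hi1 hi2 using fun s : ℕ => h (2 * s + 1)
  obtain ⟨k, φ, hφ, hk, hlim⟩ := fr_limit hα g hg (fun s => i s + 2 * s)
  refine ⟨k, hk, ?_⟩
  have e : ∀ s, i s + 2 * s + 1 = i s + (2 * s + 1) := fun s => by omega
  simp only [e] at hlim
  have hc := cst_nonneg α g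
  have h2 : ∀ s, |ξ * fr α g (i s + (2 * s + 1)) 1 0 + fr α g (i s + (2 * s + 1)) 1 1|
      ≤ 2 * cst α g * (1 / 2) ^ s := by
    intro s
    have hr := rev_eq hξ α (g 1 0) (g 1 1) (2 * s + 1) 0 (i s) fun r hr => by
      rw [zero_add]; exact hi2 s r hr
    rw [cq_zero, zero_add] at hr
    have hB : 0 < BB α (i s + (2 * s + 1)) := BB_pos hα _
    have hB0 : 0 < BB α (i s) := BB_pos hα _
    have hBB : BB α (i s) ≤ BB α (i s + (2 * s + 1)) := BB_mono hα (by omega)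
    have hx : 1 < cq ξ (2 * s + 1) := one_lt_cq hξ _
    have hp : pr ξ (2 * s + 1) = pr ξ (2 * s) * cq ξ (2 * s + 1) := pr_succ _ _
    have hpp : 0 < pr ξ (2 * s) := pr_pos hξ _
    have h2s : (2 : ℝ) ^ s ≤ pr ξ (2 * s) := pow_le_pr hξ s
    have hv1 : |lv α (g 1 0) (g 1 1) (i s)| ≤ cst α g * BB α (i s) := abs_lv_le hα _ _ _
    have hu1 : |lu α (g 1 0) (g 1 1) (i s)| ≤ cst α g * BB α (i s) := by
      obtain ⟨m, hm⟩ := Nat.exists_eq_add_of_le' (hi1 s)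
      rw [hm]
      exact abs_lu_le hα _ _ _
    rw [fr_10, fr_11]
    set L := lu α (g 1 0) (g 1 1) (i s + (2 * s + 1))
    set V := lv α (g 1 0) (g 1 1) (i s + (2 * s + 1))
    set B := BB α (i s + (2 * s + 1))
    set B0 := BB α (i s)
    set P := pr ξ (2 * s)
    set x := cq ξ (2 * s + 1)
    set C := cst α g
    have h3 : ξ * (B⁻¹ * L) + B⁻¹ * V = B⁻¹ * (ξ * L + V) := by ring
    rw [h3, abs_mul, abs_of_pos (inv_pos.2 hB), inv_mul_le_iff₀ hB]
    have h4 : |ξ * L + V| * (P * x) ≤ 2 * x * (C * B0) := by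
      rw [← abs_of_pos (mul_pos hpp (by linarith : 0 < x)), ← abs_mul, ← hp, hr]
      have h5 := abs_add_le (x * lu α (g 1 0) (g 1 1) (i s)) (lv α (g 1 0) (g 1 1) (i s))
      rw [abs_mul, abs_of_pos (by linarith : 0 < x)] at h5
      have h6 : 0 ≤ C * B0 := by positivity
      nlinarith
    have h7 : |ξ * L + V| * P ≤ 2 * (C * B0) := by
      have hx0 : 0 < x := by linarith
      have : |ξ * L + V| * P * x ≤ 2 * (C * B0) * x := by linarith
      exact le_of_mul_le_mul_right this hx0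
    have h8 : |ξ * L + V| * 2 ^ s ≤ 2 * (C * B) := by
      have h9 := mul_le_mul_of_nonneg_left h2s (abs_nonneg (ξ * L + V))
      have h10 := mul_le_mul_of_nonneg_left hBB hc
      linarith
    have h11 : (0 : ℝ) < 2 ^ s := by positivity
    rw [one_div, inv_pow]
    rw [← div_eq_mul_inv, ← mul_div_assoc, le_div_iff₀ h11]
    linarith
  have h3 := elem_tendsto hlim 1 0
  have h4 := elem_tendsto hlim 1 1
  have h5 : Tendsto (fun s => ξ * fr α g (i (φ s) + (2 * φ s + 1)) 1 0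
      + fr α g (i (φ s) + (2 * φ s + 1)) 1 1) atTop (𝓝 (ξ * k 1 0 + k 1 1)) :=
    (h3.const_mul ξ).add h4
  have h6 : Tendsto (fun s => ξ * fr α g (i (φ s) + (2 * φ s + 1)) 1 0
      + fr α g (i (φ s) + (2 * φ s + 1)) 1 1) atTop (𝓝 0) := by
    refine squeeze_zero_norm (fun s => h2 (φ s)) ?_
    have h7 : Tendsto (fun s : ℕ => 2 * cst α g * (1 / 2 : ℝ) ^ s) atTop (𝓝 (2 * cst α g * 0)) :=
      (tendsto_pow_atTop_nhds_zero_of_lt_one (by norm_num) (by norm_num)).const_mul _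
    rw [mul_zero] at h7
    exact h7.comp hφ.tendsto_atTop
  have h8 := tendsto_nhds_unique h5 h6
  linarith

/-- occurrence of long blocks gives a row of a limit form -/
lemma occ_row {α ξ : ℝ} (hα : Irrational α) (hξ : Irrational ξ)
    (g : Matrix (Fin 2) (Fin 2) ℝ) (i₀ : Fin 2) (hg : g i₀ 0 = α * g i₀ 1) (h : Occ ξ α) :
    ∃ k, IsLimit g k ∧ ∃ i, k i 0 = ξ * k i 1 ∨ k i 1 = -(ξ * k i 0) := by
  have hg' : (g.submatrix (Equiv.swap 0 i₀) id) 0 0
      = α * (g.submatrix (Equiv.swap 0 i₀) id) 0 1 := by simpa using hg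
  rcases h with h | h
  · obtain ⟨k, hk, h1⟩ := direct_row hα hξ _ hg' h
    refine ⟨_, hk.perm, i₀, Or.inl ?_⟩
    simpa using h1
  · obtain ⟨k, hk, h1⟩ := reversed_row hα hξ _ hg' h
    refine ⟨_, hk.perm, Equiv.swap 0 i₀ 1, Or.inr ?_⟩
    simpa using h1

/-- no rational bilinear relations between numbers whose initial blocks occur -/
theorem bilinear {ρ : Type*} [Fintype ρ] [DecidableEq ρ] [Nonempty ρ] {α β ξ η : ℝ}
    (hα : Irrational α) (hβ : Irrational β) (hξ : Irrational ξ) (hη : Irrational η)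
    (g h : Matrix (Fin 2) (Fin 2) ℝ) (G : Matrix ρ ρ ℝ) (i₀ j₀ : Fin 2)
    (hg : g i₀ 0 = α * g i₀ 1) (hh : h j₀ 0 = β * h j₀ 1) (ho : Occ ξ α) (ho' : Occ η β)
    {ν : ℝ} (hν0 : 0 < ν)
    (hν : ∀ x : (Fin 2 × Fin 2) × ρ → ℤ, x ≠ 0 → ν ≤ |formProd ((g ⊗ₖ h) ⊗ₖ G) x|)
    (a b c d : ℤ) (hrel : (a : ℝ) + b * ξ + c * η + d * (ξ * η) = 0) :
    a = 0 ∧ b = 0 ∧ c = 0 ∧ d = 0 := by
  obtain ⟨k, hk, i, hi⟩ := occ_row hα hξ g i₀ hg ho
  obtain ⟨l, hl, j, hj⟩ := occ_row hβ hη h j₀ hh ho'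
  have key : ∀ Y : Matrix (Fin 2) (Fin 2) ℤ,
      k i 0 * Y 0 0 * l j 0 + k i 0 * Y 0 1 * l j 1 + k i 1 * Y 1 0 * l j 0
        + k i 1 * Y 1 1 * l j 1 = 0 → Y = 0 := by
    intro Y hY
    by_contra hY0
    refine entry_ne hν0 hν hk hl Y hY0 i j ?_
    rw [← hY]
    simp [Matrix.mul_apply, Fin.sum_univ_two]
    ring
  rcases hi with hi | hi <;> rcases hj with hj | hj
  · have h1 := key !![d, b; c, a] (by
      simp only [of_apply, cons_val', cons_val_zero, cons_val_one]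
      rw [hi, hj]
      linear_combination (k i 1 * l j 1) * hrel)
    have h00 := congrFun (congrFun h1 0) 0
    have h01 := congrFun (congrFun h1 0) 1
    have h10 := congrFun (congrFun h1 1) 0
    have h11 := congrFun (congrFun h1 1) 1
    simp at h00 h01 h10 h11
    exact ⟨h11, h01, h10, h00⟩
  · have h1 := key !![b, -d; a, -c] (by
      simp only [of_apply, cons_val', cons_val_zero, cons_val_one]
      rw [hi, hj]
      push_cast
      linear_combination (k i 1 * l j 0) * hrel)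
    have h00 := congrFun (congrFun h1 0) 0
    have h01 := congrFun (congrFun h1 0) 1
    have h10 := congrFun (congrFun h1 1) 0
    have h11 := congrFun (congrFun h1 1) 1
    simp at h00 h01 h10 h11
    exact ⟨h10, h00, h11, h01⟩
  · have h1 := key !![c, a; -d, -b] (by
      simp only [of_apply, cons_val', cons_val_zero, cons_val_one]
      rw [hi, hj]
      push_cast
      linear_combination (k i 0 * l j 1) * hrel)
    have h00 := congrFun (congrFun h1 0) 0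
    have h01 := congrFun (congrFun h1 0) 1
    have h10 := congrFun (congrFun h1 1) 0
    have h11 := congrFun (congrFun h1 1) 1
    simp at h00 h01 h10 h11
    exact ⟨h01, h11, h00, h10⟩
  · have h1 := key !![a, -c; -b, d] (by
      simp only [of_apply, cons_val', cons_val_zero, cons_val_one]
      rw [hi, hj]
      push_cast
      linear_combination (k i 0 * l j 0) * hrel)
    have h00 := congrFun (congrFun h1 0) 0
    have h01 := congrFun (congrFun h1 0) 1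
    have h10 := congrFun (congrFun h1 1) 0
    have h11 := congrFun (congrFun h1 1) 1
    simp at h00 h01 h10 h11
    exact ⟨h00, h10, h01, h11⟩

end Pool.Agent.U541.TC
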