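import Mathlib

set_option autoImplicit false

/-! # Products of linear forms of tensor products: limit forms -/

open Filter Topology Matrix
open scoped Kronecker

namespace Pool.Agent.U541.TC

set_option linter.unusedSectionVars false

variable {ι κ ρ : Type*} [Fintype ι] [DecidableEq ι] [Fintype κ] [DecidableEq κ]
  [Fintype ρ] [DecidableEq ρ]

/-- the product of the linear forms given by the rows of `M` at the integer point `x` -/
noncomputable def formProd (M : Matrix ι ι ℝ) (x : ι → ℤ) : ℝ :=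
  ∏ i, (M *ᵥ fun j => (x j : ℝ)) i

/-- `k` is a limit of matrices `a g γ` with `a` diagonal of determinant `± 1` and `γ` integral
unimodular -/
def IsLimit (g k : Matrix ι ι ℝ) : Prop :=
  ∃ (a : ℕ → ι → ℝ) (γ : ℕ → Matrix ι ι ℤ), (∀ s, |∏ i, a s i| = 1) ∧ (∀ s, IsUnit (γ s).det) ∧
    Tendsto (fun s => Matrix.diagonal (a s) * (g * (γ s).map (Int.cast : ℤ → ℝ))) atTop (𝓝 k)

lemma formProd_diag (a : ι → ℝ) (M : Matrix ι ι ℝ) (x : ι → ℤ) :
    formProd (Matrix.diagonal a * M) x = (∏ i, a i) * formProd M x := by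
  unfold formProd
  rw [← Finset.prod_mul_distrib]
  refine Finset.prod_congr rfl fun i _ => ?_
  rw [← Matrix.mulVec_mulVec, Matrix.mulVec_diagonal]

lemma formProd_mul (M : Matrix ι ι ℝ) (γ : Matrix ι ι ℤ) (x : ι → ℤ) :
    formProd (M * γ.map (Int.cast : ℤ → ℝ)) x = formProd M (γ *ᵥ x) := by
  unfold formProd
  refine Finset.prod_congr rfl fun i _ => ?_
  rw [← Matrix.mulVec_mulVec]
  congr 2
  ext j
  simp [Matrix.mulVec, dotProduct]

lemma cont (x : ι → ℤ) : Continuous fun M : Matrix ι ι ℝ => formProd M x := by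
  unfold formProd
  refine continuous_finsetProd _ fun i _ => ?_
  simp only [Matrix.mulVec, dotProduct]
  refine continuous_finsetSum _ fun j _ => ?_
  exact (continuous_id.matrix_elem i j).mul continuous_const

/-- lower bounds pass to limit forms -/
lemma lower {g k : Matrix ι ι ℝ} (h : IsLimit g k) {ν : ℝ}
    (hν : ∀ x : ι → ℤ, x ≠ 0 → ν ≤ |formProd g x|) : ∀ x : ι → ℤ, x ≠ 0 → ν ≤ |formProd k x| := by
  obtain ⟨a, γ, ha, hγ, hlim⟩ := h
  intro x hx
  have h1 : Tendsto (fun s => |formProd (Matrix.diagonal (a s) *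
      (g * (γ s).map (Int.cast : ℤ → ℝ))) x|) atTop (𝓝 |formProd k x|) :=
    (((cont x).tendsto k).comp hlim).abs
  refine ge_of_tendsto' h1 fun s => ?_
  rw [formProd_diag, abs_mul, ha s, one_mul, formProd_mul]
  refine hν _ fun h0 => hx ?_
  have h2 : (γ s)⁻¹ *ᵥ (γ s *ᵥ x) = x := by
    rw [Matrix.mulVec_mulVec, Matrix.nonsing_inv_mul _ (hγ s), Matrix.one_mulVec]
  rw [← h2, h0, Matrix.mulVec_zero]

lemma map_kron (γ : Matrix ι ι ℤ) (δ : Matrix κ κ ℤ) :
    (γ ⊗ₖ δ).map (Int.cast : ℤ → ℝ)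
      = γ.map (Int.cast : ℤ → ℝ) ⊗ₖ δ.map (Int.cast : ℤ → ℝ) := by
  ext i j
  simp [kroneckerMap_apply]

/-- limit forms of tensor products -/
lemma IsLimit.kron {g k : Matrix ι ι ℝ} {h l : Matrix κ κ ℝ} (hg : IsLimit g k)
    (hh : IsLimit h l) : IsLimit (g ⊗ₖ h) (k ⊗ₖ l) := by
  obtain ⟨a, γ, ha, hγ, hlim⟩ := hg
  obtain ⟨b, δ, hb, hδ, hlim'⟩ := hh
  refine ⟨fun s p => a s p.1 * b s p.2, fun s => γ s ⊗ₖ δ s, fun s => ?_, fun s => ?_, ?_⟩
  · rw [Fintype.prod_prod_type]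
    simp only [Finset.prod_mul_distrib, Finset.prod_const, Finset.prod_pow]
    rw [abs_mul, abs_pow, abs_pow, ha, hb, one_pow, one_pow, one_mul]
  · rw [Matrix.det_kronecker]
    exact ((hγ s).pow _).mul ((hδ s).pow _)
  · have h1 : ∀ s, Matrix.diagonal (fun p : ι × κ => a s p.1 * b s p.2) *
        ((g ⊗ₖ h) * (γ s ⊗ₖ δ s).map (Int.cast : ℤ → ℝ))
        = (Matrix.diagonal (a s) * (g * (γ s).map (Int.cast : ℤ → ℝ))) ⊗ₖ
          (Matrix.diagonal (b s) * (h * (δ s).map (Int.cast : ℤ → ℝ))) := by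
      intro s
      rw [map_kron, Matrix.mul_kronecker_mul, Matrix.mul_kronecker_mul,
        Matrix.diagonal_kronecker_diagonal]
    simp only [h1]
    have h2 : Continuous fun p : Matrix ι ι ℝ × Matrix κ κ ℝ => p.1 ⊗ₖ p.2 := by
      refine continuous_matrix fun i j => ?_
      simp only [kroneckerMap_apply]
      exact (continuous_fst.matrix_elem _ _).mul (continuous_snd.matrix_elem _ _)
    exact (h2.tendsto (k, l)).comp (hlim.prodMk_nhds hlim')

/-- the rows of a matrix with a positive lower bound have independent entries -/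
lemma rows_indep {M : Matrix ι ι ℝ} {ν : ℝ} (hν0 : 0 < ν)
    (hν : ∀ x : ι → ℤ, x ≠ 0 → ν ≤ |formProd M x|) (i : ι) : LinearIndependent ℚ (M i) := by
  rw [← LinearIndependent.iff_fractionRing (R := ℤ) (K := ℚ), Fintype.linearIndependent_iff]
  intro x hx
  by_contra hcon
  have hx0 : x ≠ 0 := fun h => hcon fun j => by rw [h]; rfl
  have h1 := hν x hx0
  have h2 : formProd M x = 0 := by
    unfold formProd
    refine Finset.prod_eq_zero (Finset.mem_univ i) ?_
    rw [← hx, Matrix.mulVec, dotProduct]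
    refine Finset.sum_congr rfl fun j _ => ?_
    rw [zsmul_eq_mul, mul_comm]
  rw [h2, abs_zero] at h1
  linarith

/-- permutation of the rows -/
lemma IsLimit.perm {g k : Matrix ι ι ℝ} (e : Equiv.Perm ι) (h : IsLimit (g.submatrix e id) k) :
    IsLimit g (k.submatrix e.symm id) := by
  obtain ⟨a, γ, ha, hγ, hlim⟩ := h
  refine ⟨fun s i => a s (e.symm i), γ, fun s => ?_, hγ, ?_⟩
  · rw [Equiv.prod_comp e.symm (a s)]
    exact ha s
  · have h1 : ∀ s, Matrix.diagonal (fun i => a s (e.symm i)) * (g * (γ s).map (Int.cast : ℤ → ℝ))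
        = (Matrix.diagonal (a s) * (g.submatrix e id * (γ s).map (Int.cast : ℤ → ℝ))).submatrix
            e.symm id := by
      intro s
      ext i j
      rw [Matrix.submatrix_apply, Matrix.diagonal_mul, Matrix.diagonal_mul]
      simp [Matrix.mul_apply]
    simp only [h1]
    have h2 : Continuous fun M : Matrix ι ι ℝ => M.submatrix e.symm id :=
      continuous_id.matrix_submatrix _ _
    exact (h2.tendsto k).comp hlim

/-- every matrix is a limit form of itself -/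
lemma IsLimit.refl (g : Matrix ι ι ℝ) : IsLimit g g := by
  refine ⟨fun _ _ => 1, fun _ => 1, fun _ => by simp, fun _ => by simp, ?_⟩
  have h1 : Matrix.diagonal (fun _ : ι => (1 : ℝ)) * (g * (1 : Matrix ι ι ℤ).map
      (Int.cast : ℤ → ℝ)) = g := by
    rw [Matrix.map_one _ Int.cast_zero Int.cast_one, mul_one, Matrix.diagonal_one, one_mul]
  simp only [h1]
  exact tendsto_const_nhds

/-- the value at a decomposable integer point -/
lemma formProd_tensor (k : Matrix ι ι ℝ) (l : Matrix κ κ ℝ) (K : Matrix ρ ρ ℝ)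
    (Y : Matrix ι κ ℤ) (z : ρ → ℤ) (i : ι) (j : κ) (c : ρ) :
    (((k ⊗ₖ l) ⊗ₖ K) *ᵥ fun p : (ι × κ) × ρ => ((Y p.1.1 p.1.2 * z p.2 : ℤ) : ℝ)) ((i, j), c)
      = (k * Y.map (Int.cast : ℤ → ℝ) * lᵀ) i j * (K *ᵥ fun e => (z e : ℝ)) c := by
  have h1 : (((k ⊗ₖ l) ⊗ₖ K) *ᵥ fun p : (ι × κ) × ρ =>
      ((Y p.1.1 p.1.2 * z p.2 : ℤ) : ℝ)) ((i, j), c)
      = ∑ a, ∑ b, ∑ e, k i a * l j b * K c e * (Y a b * z e) := by
    simp only [Matrix.mulVec, dotProduct, Fintype.sum_prod_type, kroneckerMap_apply]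
    push_cast
    rfl
  have h2 : (k * Y.map (Int.cast : ℤ → ℝ) * lᵀ) i j = ∑ a, ∑ b, k i a * Y a b * l j b := by
    simp only [Matrix.mul_apply, Matrix.map_apply, Matrix.transpose_apply, Finset.sum_mul]
    rw [Finset.sum_comm]
  have h3 : (K *ᵥ fun e => (z e : ℝ)) c = ∑ e, K c e * z e := rfl
  rw [h1, h2, h3, Finset.sum_mul]
  refine Finset.sum_congr rfl fun a _ => ?_
  rw [Finset.sum_mul]
  refine Finset.sum_congr rfl fun b _ => ?_
  rw [Finset.mul_sum]
  refine Finset.sum_congr rfl fun e _ => ?_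
  ring

/-- for all limit forms `k`, `l`, all nonzero integral `Y` the entries of `k Y lᵀ` are not zero -/
lemma entry_ne [Nonempty ρ] {g k : Matrix ι ι ℝ} {h l : Matrix κ κ ℝ} {G : Matrix ρ ρ ℝ} {ν : ℝ}
    (hν0 : 0 < ν) (hν : ∀ x : (ι × κ) × ρ → ℤ, x ≠ 0 → ν ≤ |formProd ((g ⊗ₖ h) ⊗ₖ G) x|)
    (hk : IsLimit g k) (hl : IsLimit h l) (Y : Matrix ι κ ℤ) (hY : Y ≠ 0) (i : ι) (j : κ) :
    (k * Y.map (Int.cast : ℤ → ℝ) * lᵀ) i j ≠ 0 := by
  intro h0
  obtain ⟨c⟩ := ‹Nonempty ρ›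
  have h1 := lower ((hk.kron hl).kron (IsLimit.refl G)) hν
    (fun p => Y p.1.1 p.1.2 * (1 : ℤ)) (fun h2 => hY (by
      ext a b
      have := congrFun h2 ((a, b), c)
      simpa using this))
  have h2 : formProd ((k ⊗ₖ l) ⊗ₖ G) (fun p => Y p.1.1 p.1.2 * (1 : ℤ)) = 0 := by
    unfold formProd
    refine Finset.prod_eq_zero (Finset.mem_univ ((i, j), c)) ?_
    rw [formProd_tensor k l G Y (fun _ => 1) i j c, h0, zero_mul]
  rw [h2, abs_zero] at h1
  linarith

end Pool.Agent.U541.TC
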