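import Pool.Agent.U541.TC.Main

set_option autoImplicit false

/-! # Symmetric powers of systems of linear forms: limit forms -/

open Filter Topology Matrix
open scoped Kronecker

namespace Pool.Agent.U541.TC

open MvPolynomial

set_option linter.unusedSectionVars false
set_option linter.unusedVariables false

section alg

variable {ι : Type*} [Fintype ι] [DecidableEq ι] {R S : Type*} [CommRing R] [CommRing S]

/-- the substitution `P ↦ P (∑ i, X i • (row i of M))` -/
noncomputable def subst (M : Matrix ι ι R) : MvPolynomial ι R →ₐ[R] MvPolynomial ι R :=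
  aeval fun j => ∑ i, C (M i j) * X i

/-- the exponents of the monomials of degree `k` -/
abbrev Mon (ι : Type*) [Fintype ι] [DecidableEq ι] (k : ℕ) : Type _ :=
  ↥(Finset.finsuppAntidiag (Finset.univ : Finset ι) k)

/-- the matrix of the `k`-th symmetric power: the entry at `(d, e)` is the coefficient of `X ^ d` in
the image of `X ^ e` -/
noncomputable def symP (k : ℕ) (M : Matrix ι ι R) : Matrix (Mon ι k) (Mon ι k) R :=
  fun d e => coeff (d : ι →₀ ℕ) (subst M (monomial (e : ι →₀ ℕ) 1))

lemma subst_X (M : Matrix ι ι R) (j : ι) : subst M (X j) = ∑ i, C (M i j) * X i := by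
  rw [subst, aeval_X]

lemma subst_mul (M N : Matrix ι ι R) : subst (M * N) = (subst M).comp (subst N) := by
  refine algHom_ext fun j => ?_
  rw [AlgHom.comp_apply, subst_X, subst_X, map_sum]
  have h1 : ∀ i, subst M (C (N i j) * X i) = ∑ l, C (M l i * N i j) * X l := by
    intro i
    rw [map_mul, subst_X, Finset.mul_sum]
    refine Finset.sum_congr rfl fun l _ => ?_
    rw [show subst M (C (N i j)) = C (N i j) from (subst M).commutes _, ← mul_assoc, ← C_mul,
      mul_comm (N i j)]
  simp only [h1]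
  rw [Finset.sum_comm]
  refine Finset.sum_congr rfl fun i _ => ?_
  rw [Matrix.mul_apply, map_sum, Finset.sum_mul]

lemma subst_diag (a : ι → R) (j : ι) : subst (Matrix.diagonal a) (X j) = C (a j) * X j := by
  rw [subst_X, Finset.sum_eq_single j]
  · rw [Matrix.diagonal_apply_eq]
  · intro i _ hij
    rw [Matrix.diagonal_apply_ne _ hij, C_0, zero_mul]
  · intro h
    exact absurd (Finset.mem_univ j) h

lemma subst_one : subst (1 : Matrix ι ι R) = AlgHom.id R _ := by
  refine algHom_ext fun j => ?_
  rw [← Matrix.diagonal_one, subst_diag, C_1, one_mul, AlgHom.id_apply]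

lemma degree_mem {k : ℕ} (d : ι →₀ ℕ) :
    d ∈ Finset.finsuppAntidiag (Finset.univ : Finset ι) k ↔ d.degree = k := by
  rw [Finset.mem_finsuppAntidiag]
  have : (Finset.univ : Finset ι).sum d = d.degree := by
    rw [Finsupp.degree_eq_sum]
  rw [this]
  exact ⟨fun h => h.1, fun h => ⟨h, Finset.subset_univ _⟩⟩

lemma subst_hom {k : ℕ} (M : Matrix ι ι R) {P : MvPolynomial ι R} (hP : P.IsHomogeneous k) :
    (subst M P).IsHomogeneous k := by
  have h := hP.aeval (S := R) (fun j => ∑ i, C (M i j) * X i) (n := 1) fun j => by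
    refine IsHomogeneous.sum _ _ _ fun i _ => ?_
    have := (isHomogeneous_C ι (M i j)).mul (isHomogeneous_X R i)
    rwa [zero_add] at this
  rw [one_mul] at h
  exact h

/-- a homogeneous polynomial is the sum of its monomials -/
lemma hom_eq {k : ℕ} {P : MvPolynomial ι R} (hP : P.IsHomogeneous k) :
    P = ∑ d : Mon ι k, monomial (d : ι →₀ ℕ) (coeff (d : ι →₀ ℕ) P) := by
  ext m
  rw [coeff_sum]
  by_cases hm : m ∈ Finset.finsuppAntidiag (Finset.univ : Finset ι) k
  · rw [Finset.sum_eq_single ⟨m, hm⟩]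
    · rw [coeff_monomial, if_pos rfl]
    · intro b _ hb
      rw [coeff_monomial, if_neg]
      exact fun h => hb (Subtype.ext h)
    · intro h
      exact absurd (Finset.mem_univ _) h
  · rw [Finset.sum_eq_zero]
    · by_contra h
      refine hm ((degree_mem m).2 ?_)
      by_contra h2
      exact h (hP.coeff_eq_zero h2)
    · intro b _
      rw [coeff_monomial, if_neg]
      rintro rfl
      exact hm b.2

/-- the coefficients of the image -/
lemma symP_mulVec {k : ℕ} (M : Matrix ι ι R) {P : MvPolynomial ι R} (hP : P.IsHomogeneous k)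
    (d : Mon ι k) :
    (symP k M *ᵥ fun e => coeff (e : ι →₀ ℕ) P) d = coeff (d : ι →₀ ℕ) (subst M P) := by
  conv_rhs => rw [hom_eq hP]
  rw [map_sum, coeff_sum, Matrix.mulVec, dotProduct]
  refine Finset.sum_congr rfl fun e _ => ?_
  have h1 : monomial (e : ι →₀ ℕ) (coeff (e : ι →₀ ℕ) P)
      = coeff (e : ι →₀ ℕ) P • (monomial (e : ι →₀ ℕ) (1 : R)) := by
    rw [smul_monomial, smul_eq_mul, mul_one]
  rw [h1, map_smul, coeff_smul, smul_eq_mul, mul_comm]
  rfl

lemma symP_mul {k : ℕ} (M N : Matrix ι ι R) : symP k (M * N) = symP k M * symP k N := by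
  ext d e
  have he : (monomial (e : ι →₀ ℕ) (1 : R)).IsHomogeneous k :=
    isHomogeneous_monomial _ ((degree_mem _).1 e.2)
  rw [symP, subst_mul, AlgHom.comp_apply, ← symP_mulVec M (subst_hom N he) d, Matrix.mul_apply]
  rfl

lemma symP_one {k : ℕ} : symP k (1 : Matrix ι ι R) = 1 := by
  ext d e
  rw [symP, subst_one, AlgHom.id_apply, coeff_monomial, Matrix.one_apply]
  by_cases h : d = e
  · rw [if_pos (by rw [h]), if_pos h]
  · rw [if_neg (fun h2 => h (Subtype.ext h2.symm)), if_neg h]

lemma subst_diag_monomial (a : ι → R) (e : ι →₀ ℕ) (r : R) :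
    subst (Matrix.diagonal a) (monomial e r) = monomial e (r * ∏ i, a i ^ e i) := by
  rw [monomial_eq, map_mul, show subst (Matrix.diagonal a) (C r) = C r from
    (subst (Matrix.diagonal a)).commutes _, Finsupp.prod_fintype _ _ (by simp), map_prod]
  simp only [map_pow, subst_diag, mul_pow, Finset.prod_mul_distrib]
  rw [monomial_eq, Finsupp.prod_fintype _ _ (by simp), C_mul, map_prod]
  simp only [C_pow]
  ring

lemma symP_diag {k : ℕ} (a : ι → R) :
    symP k (Matrix.diagonal a) = Matrix.diagonal fun d : Mon ι k => ∏ i, a i ^ (d : ι →₀ ℕ) i := by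
  ext d e
  rw [symP, subst_diag_monomial, coeff_monomial, Matrix.diagonal_apply]
  by_cases h : d = e
  · rw [if_pos (by rw [h]), if_pos h, h, one_mul]
  · rw [if_neg (fun h2 => h (Subtype.ext h2.symm)), if_neg h]

lemma map_subst (f : R →+* S) (M : Matrix ι ι R) (P : MvPolynomial ι R) :
    MvPolynomial.map f (subst M P) = subst (M.map f) (MvPolynomial.map f P) := by
  have h : (MvPolynomial.map f).comp (subst M).toRingHom
      = (subst (M.map f)).toRingHom.comp (MvPolynomial.map f) := by
    refine ringHom_ext (fun r => ?_) fun j => ?_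
    · simp only [RingHom.comp_apply, AlgHom.toRingHom_eq_coe, RingHom.coe_coe, MvPolynomial.map_C]
      rw [show subst M (C r) = C r from (subst M).commutes _,
        show subst (M.map f) (C (f r)) = C (f r) from (subst (M.map f)).commutes _, MvPolynomial.map_C]
    · simp only [RingHom.comp_apply, AlgHom.toRingHom_eq_coe, RingHom.coe_coe, MvPolynomial.map_X,
        subst_X, map_sum, map_mul, MvPolynomial.map_C, Matrix.map_apply]
  exact congrArg (fun g : MvPolynomial ι R →+* MvPolynomial ι S => g P) h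

lemma symP_map {k : ℕ} (f : R →+* S) (M : Matrix ι ι R) :
    (symP k M).map f = symP k (M.map f) := by
  ext d e
  rw [Matrix.map_apply, symP, symP, ← coeff_map, map_subst, MvPolynomial.map_monomial, map_one]

/-- unimodular matrices have unimodular symmetric powers -/
lemma symP_det {k : ℕ} {γ : Matrix ι ι R} (h : IsUnit γ.det) : IsUnit (symP k γ).det := by
  have h1 : symP k γ * symP k γ⁻¹ = 1 := by
    rw [← symP_mul, Matrix.mul_nonsing_inv _ h, symP_one]
  exact (Matrix.isUnit_iff_isUnit_det _).1 (IsUnit.of_mul_eq_one _ h1)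

/-- the sum of the `i`-th exponents does not depend on `i` -/
lemma sum_exp (k : ℕ) (i j : ι) :
    ∑ d : Mon ι k, (d : ι →₀ ℕ) i = ∑ d : Mon ι k, (d : ι →₀ ℕ) j := by
  have hm : ∀ d : ι →₀ ℕ, d ∈ Finset.finsuppAntidiag (Finset.univ : Finset ι) k →
      Finsupp.equivMapDomain (Equiv.swap i j) d ∈
        Finset.finsuppAntidiag (Finset.univ : Finset ι) k := by
    intro d hd
    rw [degree_mem] at hd ⊢
    rw [← hd, Finsupp.degree_eq_sum, Finsupp.degree_eq_sum]
    simp only [Finsupp.equivMapDomain_apply]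
    exact Equiv.sum_comp (Equiv.swap i j).symm fun l => d l
  refine Finset.sum_bij' (fun d _ => ⟨_, hm d.1 d.2⟩) (fun d _ => ⟨_, hm d.1 d.2⟩)
    (fun _ _ => Finset.mem_univ _) (fun _ _ => Finset.mem_univ _) (fun d _ => ?_) (fun d _ => ?_)
    fun d _ => ?_
  · refine Subtype.ext (Finsupp.ext fun l => ?_)
    simp [Finsupp.equivMapDomain_apply]
  · refine Subtype.ext (Finsupp.ext fun l => ?_)
    simp [Finsupp.equivMapDomain_apply]
  · simp [Finsupp.equivMapDomain_apply]

end alg

section real

variable {ι : Type*} [Fintype ι] [DecidableEq ι]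

lemma symP_diag_det (k : ℕ) (a : ι → ℝ) (ha : |∏ i, a i| = 1) :
    |∏ d : Mon ι k, ∏ i, a i ^ (d : ι →₀ ℕ) i| = 1 := by
  rw [Finset.prod_comm]
  simp only [Finset.prod_pow_eq_pow_sum]
  rcases isEmpty_or_nonempty ι with h | ⟨⟨i₀⟩⟩
  · simp
  · have h1 : ∀ i, ∑ d : Mon ι k, (d : ι →₀ ℕ) i = ∑ d : Mon ι k, (d : ι →₀ ℕ) i₀ :=
      fun i => sum_exp k i i₀
    simp only [h1]
    rw [Finset.prod_pow, abs_pow, ha, one_pow]

lemma cont_subst (e : ι →₀ ℕ) (d : ι →₀ ℕ) :
    Continuous fun M : Matrix ι ι ℝ => coeff d (subst M (monomial e (1 : ℝ))) := by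
  have hX : ∀ (j : ι) (d : ι →₀ ℕ),
      Continuous fun M : Matrix ι ι ℝ => coeff d (subst M (X j)) := by
    intro j d
    simp only [subst_X, coeff_sum, coeff_C_mul]
    exact continuous_finsetSum _ fun i _ => (continuous_id.matrix_elem i j).mul continuous_const
  have hmul : ∀ P Q : MvPolynomial ι ℝ,
      (∀ d, Continuous fun M : Matrix ι ι ℝ => coeff d (subst M P)) →
      (∀ d, Continuous fun M : Matrix ι ι ℝ => coeff d (subst M Q)) →
      ∀ d, Continuous fun M : Matrix ι ι ℝ => coeff d (subst M (P * Q)) := by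
    intro P Q hP hQ d
    simp only [map_mul, coeff_mul]
    exact continuous_finsetSum _ fun p _ => (hP p.1).mul (hQ p.2)
  have hall : ∀ (P : MvPolynomial ι ℝ) (d : ι →₀ ℕ),
      Continuous fun M : Matrix ι ι ℝ => coeff d (subst M P) := by
    intro P
    induction P using MvPolynomial.induction_on with
    | C r =>
      intro d
      have : ∀ M : Matrix ι ι ℝ, subst M (C r) = C r := fun M => (subst M).commutes _
      simp only [this]
      exact continuous_const
    | add P Q hP hQ =>
      intro d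
      simp only [map_add, coeff_add]
      exact (hP d).add (hQ d)
    | mul_X P j hP => exact hmul P (X j) hP (hX j)
  exact hall _ d

lemma cont_symP (k : ℕ) : Continuous fun M : Matrix ι ι ℝ => symP k M :=
  continuous_matrix fun d e => cont_subst _ _

/-- limit forms of symmetric powers -/
lemma IsLimit.sym {g l : Matrix ι ι ℝ} (k : ℕ) (h : IsLimit g l) :
    IsLimit (symP k g) (symP k l) := by
  obtain ⟨a, γ, ha, hγ, hlim⟩ := h
  refine ⟨fun s d => ∏ i, a s i ^ (d : ι →₀ ℕ) i, fun s => symP k (γ s),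
    fun s => symP_diag_det k _ (ha s), fun s => symP_det (hγ s), ?_⟩
  have h1 : ∀ s, Matrix.diagonal (fun d : Mon ι k => ∏ i, a s i ^ (d : ι →₀ ℕ) i) *
      (symP k g * (symP k (γ s)).map (Int.cast : ℤ → ℝ))
      = symP k (Matrix.diagonal (a s) * (g * (γ s).map (Int.cast : ℤ → ℝ))) := by
    intro s
    rw [symP_mul, symP_mul, symP_diag]
    have h2 := symP_map (k := k) (Int.castRingHom ℝ) (γ s)
    have h3 : (symP k (γ s)).map (Int.cast : ℤ → ℝ) = symP k ((γ s).map (Int.cast : ℤ → ℝ)) := h2
    rw [h3]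
  simp only [h1]
  exact ((cont_symP k).tendsto l).comp hlim

end real

end Pool.Agent.U541.TC
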