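import Pool.Agent.U541.TC.Sym
import Pool.Agent.U541.TC.Cfr

set_option autoImplicit false

/-! # Symmetric powers of systems of linear forms: nonvanishing and continued fractions -/

open Filter Topology Matrix
open scoped Kronecker

namespace Pool.Agent.U541.TC

open MvPolynomial Pool.Agent.N759.CFr

set_option linter.unusedSectionVars false

section general

variable {ι ρ : Type*} [Fintype ι] [DecidableEq ι] [Fintype ρ] [DecidableEq ρ]

lemma kron_mulVec (l : Matrix ι ι ℝ) (K : Matrix ρ ρ ℝ) (y : ι → ℤ) (z : ρ → ℤ) (i : ι) (c : ρ) :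
    ((l ⊗ₖ K) *ᵥ fun p : ι × ρ => ((y p.1 * z p.2 : ℤ) : ℝ)) (i, c)
      = (l *ᵥ fun a => (y a : ℝ)) i * (K *ᵥ fun e => (z e : ℝ)) c := by
  simp only [Matrix.mulVec, dotProduct, Fintype.sum_prod_type, kroneckerMap_apply]
  rw [Finset.sum_mul_sum]
  refine Finset.sum_congr rfl fun a _ => Finset.sum_congr rfl fun e _ => ?_
  push_cast
  ring

/-- the coefficients of the integral forms at limit forms are not zero -/
lemma coeff_ne [Nonempty ρ] {k : ℕ} {g l : Matrix ι ι ℝ} {G : Matrix ρ ρ ℝ} {ν : ℝ} (hν0 : 0 < ν)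
    (hν : ∀ x : Mon ι k × ρ → ℤ, x ≠ 0 → ν ≤ |formProd (symP k g ⊗ₖ G) x|)
    (hl : IsLimit g l) {P : MvPolynomial ι ℤ} (hP : P.IsHomogeneous k) (hP0 : P ≠ 0)
    (d : ι →₀ ℕ) (hd : d.degree = k) :
    coeff d (subst l (MvPolynomial.map (Int.castRingHom ℝ) P)) ≠ 0 := by
  intro h0
  obtain ⟨c⟩ := ‹Nonempty ρ›
  have hP' : (MvPolynomial.map (Int.castRingHom ℝ) P).IsHomogeneous k := hP.map _
  have h1 := lower ((hl.sym k).kron (IsLimit.refl G)) hν
    (fun p => coeff (p.1 : ι →₀ ℕ) P * (1 : ℤ)) (fun h2 => hP0 (by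
      rw [hom_eq hP]
      refine Finset.sum_eq_zero fun e _ => ?_
      have h3 := congrFun h2 (e, c)
      have h4 : coeff (e : ι →₀ ℕ) P = 0 := by simpa using h3
      rw [h4, monomial_zero]))
  have h2 : formProd (symP k l ⊗ₖ G) (fun p => coeff (p.1 : ι →₀ ℕ) P * (1 : ℤ)) = 0 := by
    unfold formProd
    refine Finset.prod_eq_zero (Finset.mem_univ (⟨d, (degree_mem d).2 hd⟩, c)) ?_
    rw [kron_mulVec (symP k l) G (fun e => coeff (e : ι →₀ ℕ) P) (fun _ => 1)]
    have h3 : (fun a : Mon ι k => ((coeff (a : ι →₀ ℕ) P : ℤ) : ℝ))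
        = fun a : Mon ι k => coeff (a : ι →₀ ℕ) (MvPolynomial.map (Int.castRingHom ℝ) P) := by
      funext a
      rw [coeff_map]
      rfl
    rw [h3, symP_mulVec l hP', h0, zero_mul]
  rw [h2, abs_zero] at h1
  linarith

lemma eval_single {k : ℕ} (i : ι) {Q : MvPolynomial ι ℝ} (hQ : Q.IsHomogeneous k) :
    eval (Pi.single i 1) Q = coeff (Finsupp.single i k) Q := by
  conv_lhs => rw [hom_eq hQ]
  rw [map_sum]
  have hm : Finsupp.single i k ∈ Finset.finsuppAntidiag (Finset.univ : Finset ι) k := by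
    rw [degree_mem, Finsupp.degree_single]
  rw [Finset.sum_eq_single ⟨_, hm⟩]
  · rw [eval_monomial, Finsupp.prod_fintype _ _ (by simp)]
    rw [Finset.prod_eq_one, mul_one]
    intro j _
    by_cases hj : j = i
    · subst hj
      rw [Pi.single_eq_same, one_pow]
    · simp [Ne.symm hj]
  · intro d _ hd
    rw [eval_monomial, Finsupp.prod_fintype _ _ (by simp)]
    have h1 : ∃ j, j ≠ i ∧ (d : ι →₀ ℕ) j ≠ 0 := by
      by_contra hcon
      push Not at hcon
      refine hd (Subtype.ext ?_)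
      have h2 : (d : ι →₀ ℕ) = Finsupp.single i ((d : ι →₀ ℕ) i) := by
        ext j
        by_cases hj : j = i
        · subst hj; simp
        · rw [hcon j hj, Finsupp.single_apply, if_neg (Ne.symm hj)]
      have h3 : (d : ι →₀ ℕ).degree = k := (degree_mem _).1 d.2
      rw [h2, Finsupp.degree_single] at h3
      rw [h2, h3]
    obtain ⟨j, hj, hj0⟩ := h1
    rw [Finset.prod_eq_zero (Finset.mem_univ j), mul_zero]
    rw [Pi.single_eq_of_ne hj, zero_pow hj0]
  · intro h
    exact absurd (Finset.mem_univ _) h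

lemma eval_subst (M : Matrix ι ι ℝ) (i : ι) (P : MvPolynomial ι ℝ) :
    eval (Pi.single i 1) (subst M P) = eval (M i) P := by
  have h : (aeval (R := ℝ) (Pi.single i (1 : ℝ))).comp (subst M) = aeval (M i) := by
    refine algHom_ext fun j => ?_
    rw [AlgHom.comp_apply, subst_X, map_sum, aeval_X, Finset.sum_eq_single i]
    · rw [map_mul, aeval_X, Pi.single_eq_same, mul_one, aeval_C]
      rfl
    · intro b _ hb
      rw [map_mul, aeval_X, Pi.single_eq_of_ne hb, mul_zero]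
    · intro h
      exact absurd (Finset.mem_univ _) h
  have h2 := congrArg (fun f : MvPolynomial ι ℝ →ₐ[ℝ] ℝ => f P) h
  simpa [AlgHom.comp_apply, MvPolynomial.coe_aeval_eq_eval] using h2

/-- no row of a limit form is a zero of a rational form of degree `k` -/
lemma row_ne [Nonempty ρ] {k : ℕ} {g l : Matrix ι ι ℝ} {G : Matrix ρ ρ ℝ} {ν : ℝ} (hν0 : 0 < ν)
    (hν : ∀ x : Mon ι k × ρ → ℤ, x ≠ 0 → ν ≤ |formProd (symP k g ⊗ₖ G) x|)
    (hl : IsLimit g l) {P : MvPolynomial ι ℤ} (hP : P.IsHomogeneous k) (hP0 : P ≠ 0) (i : ι) :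
    eval (l i) (MvPolynomial.map (Int.castRingHom ℝ) P) ≠ 0 := by
  have h1 := coeff_ne hν0 hν hl hP hP0 (Finsupp.single i k) (Finsupp.degree_single _ _)
  rwa [← eval_single i (subst_hom l (hP.map _)), eval_subst] at h1

lemma coeff_diag {k : ℕ} (a : ι → ℝ) {Q : MvPolynomial ι ℝ} (hQ : Q.IsHomogeneous k)
    (d : ι →₀ ℕ) (hd : d.degree = k) :
    coeff d (subst (Matrix.diagonal a) Q) = (∏ i, a i ^ d i) * coeff d Q := by
  have h := symP_mulVec (Matrix.diagonal a) hQ ⟨d, (degree_mem d).2 hd⟩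
  rw [symP_diag, Matrix.mulVec_diagonal] at h
  exact h.symm

end general

/-- two-sided occurrence: arbitrarily long blocks `(reversed block of ζ) (block of ξ)` occur -/
def TwoSided (ξ ζ α : ℝ) : Prop :=
  ∀ ℓ : ℕ, ∃ i : ℕ, ℓ ≤ i ∧ (∀ r < ℓ, pq ξ r = pq α (i + 1 + r)) ∧
    (∀ r < ℓ, pq ζ r = pq α (i - r))

lemma two_rows {α ξ ζ : ℝ} (hα : Irrational α) (hξ : Irrational ξ) (hζ : Irrational ζ)
    (g : Matrix (Fin 2) (Fin 2) ℝ) (hg : g 0 0 = α * g 0 1) (h : TwoSided ξ ζ α) :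
    ∃ k, IsLimit g k ∧ k 0 0 = ξ * k 0 1 ∧ k 1 1 = -(ζ * k 1 0) := by
  choose i hi1 hi2 hi3 using fun s : ℕ => h (2 * s + 1)
  obtain ⟨k, φ, hφ, hk, hlim⟩ := fr_limit hα g hg i
  refine ⟨k, hk, ?_, ?_⟩
  · have h1 : Tendsto (fun s => cq α (i s + 1)) atTop (𝓝 ξ) := by
      have h2 : ∀ s, |cq α (i s + 1) - ξ| ≤ (1 / 2) ^ s := by
        intro s
        rw [abs_sub_comm]
        refine diff_le hξ (irr_cq hα _) s fun r hr => ?_
        rw [← pq_add]
        exact hi2 s r hr
      rw [tendsto_iff_norm_sub_tendsto_zero]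
      refine squeeze_zero (fun _ => norm_nonneg _) h2 ?_
      exact tendsto_pow_atTop_nhds_zero_of_lt_one (by norm_num) (by norm_num)
    have h3 := elem_tendsto hlim 0 0
    have h4 := elem_tendsto hlim 0 1
    have h5 : Tendsto (fun s => cq α (i (φ s) + 1) * fr α g (i (φ s) + 1) 0 1) atTop
        (𝓝 (ξ * k 0 1)) := (h1.comp hφ.tendsto_atTop).mul h4
    have h6 : ∀ s, cq α (i (φ s) + 1) * fr α g (i (φ s) + 1) 0 1
        = fr α g (i (φ s) + 1) 0 0 := by
      intro s
      have hu0 : lu α (g 0 0) (g 0 1) (i (φ s) + 1)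
          = cq α (i (φ s) + 1) * lv α (g 0 0) (g 0 1) (i (φ s) + 1) := by
        rw [hg]; exact lu_eq hα _ _
      rw [fr_00, fr_01, hu0]
      ring
    simp only [h6] at h5
    exact tendsto_nhds_unique h3 h5
  · have hc := cst_nonneg α g
    have h2 : ∀ s, |ζ * fr α g (i s + 1) 1 0 + fr α g (i s + 1) 1 1|
        ≤ 2 * cst α g * (1 / 2) ^ s := by
      intro s
      set j : ℕ := i s - 2 * s with hj
      have hj1 : 1 ≤ j := by have := hi1 s; omega
      have ej : i s + 1 = j + (2 * s + 1) := by have := hi1 s; omega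
      have hr := rev_eq hζ α (g 1 0) (g 1 1) (2 * s + 1) 0 j fun r hr => by
        rw [zero_add, hi3 s r hr]
        congr 1
        omega
      rw [cq_zero, zero_add] at hr
      rw [ej]
      have hB : 0 < BB α (j + (2 * s + 1)) := BB_pos hα _
      have hB0 : 0 < BB α j := BB_pos hα _
      have hBB : BB α j ≤ BB α (j + (2 * s + 1)) := BB_mono hα (by omega)
      have hx : 1 < cq ζ (2 * s + 1) := one_lt_cq hζ _
      have hp : pr ζ (2 * s + 1) = pr ζ (2 * s) * cq ζ (2 * s + 1) := pr_succ _ _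
      have hpp : 0 < pr ζ (2 * s) := pr_pos hζ _
      have h2s : (2 : ℝ) ^ s ≤ pr ζ (2 * s) := pow_le_pr hζ s
      have hv1 : |lv α (g 1 0) (g 1 1) j| ≤ cst α g * BB α j := abs_lv_le hα _ _ _
      have hu1 : |lu α (g 1 0) (g 1 1) j| ≤ cst α g * BB α j := by
        obtain ⟨m, hm⟩ := Nat.exists_eq_add_of_le' hj1
        rw [hm]
        exact abs_lu_le hα _ _ _
      rw [fr_10, fr_11]
      set L := lu α (g 1 0) (g 1 1) (j + (2 * s + 1))
      set V := lv α (g 1 0) (g 1 1) (j + (2 * s + 1))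
      set B := BB α (j + (2 * s + 1))
      set B0 := BB α j
      set P := pr ζ (2 * s)
      set x := cq ζ (2 * s + 1)
      set C := cst α g
      have h3 : ζ * (B⁻¹ * L) + B⁻¹ * V = B⁻¹ * (ζ * L + V) := by ring
      rw [h3, abs_mul, abs_of_pos (inv_pos.2 hB), inv_mul_le_iff₀ hB]
      have h4 : |ζ * L + V| * (P * x) ≤ 2 * x * (C * B0) := by
        rw [← abs_of_pos (mul_pos hpp (by linarith : 0 < x)), ← abs_mul, ← hp, hr]
        have h5 := abs_add_le (x * lu α (g 1 0) (g 1 1) j) (lv α (g 1 0) (g 1 1) j)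
        rw [abs_mul, abs_of_pos (by linarith : 0 < x)] at h5
        have h6 : 0 ≤ C * B0 := by positivity
        nlinarith
      have h7 : |ζ * L + V| * P ≤ 2 * (C * B0) := by
        have hx0 : 0 < x := by linarith
        have : |ζ * L + V| * P * x ≤ 2 * (C * B0) * x := by linarith
        exact le_of_mul_le_mul_right this hx0
      have h8 : |ζ * L + V| * 2 ^ s ≤ 2 * (C * B) := by
        have h9 := mul_le_mul_of_nonneg_left h2s (abs_nonneg (ζ * L + V))
        have h10 := mul_le_mul_of_nonneg_left hBB hc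
        linarith
      have h11 : (0 : ℝ) < 2 ^ s := by positivity
      rw [one_div, inv_pow, ← div_eq_mul_inv, ← mul_div_assoc, le_div_iff₀ h11]
      linarith
    have h3 := elem_tendsto hlim 1 0
    have h4 := elem_tendsto hlim 1 1
    have h5 : Tendsto (fun s => ζ * fr α g (i (φ s) + 1) 1 0
        + fr α g (i (φ s) + 1) 1 1) atTop (𝓝 (ζ * k 1 0 + k 1 1)) :=
      (h3.const_mul ζ).add h4
    have h6 : Tendsto (fun s => ζ * fr α g (i (φ s) + 1) 1 0
        + fr α g (i (φ s) + 1) 1 1) atTop (𝓝 0) := by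
      refine squeeze_zero_norm (fun s => h2 (φ s)) ?_
      have h7 : Tendsto (fun s : ℕ => 2 * cst α g * (1 / 2 : ℝ) ^ s) atTop (𝓝 (2 * cst α g * 0)) :=
        (tendsto_pow_atTop_nhds_zero_of_lt_one (by norm_num) (by norm_num)).const_mul _
      rw [mul_zero] at h7
      exact h7.comp hφ.tendsto_atTop
    have h8 := tendsto_nhds_unique h5 h6
    linarith

section binary

variable {ρ : Type*} [Fintype ρ] [DecidableEq ρ] [Nonempty ρ]

/-- no polar relation between the two sides of two-sided limits -/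
theorem polar {α ξ ζ : ℝ} (hα : Irrational α) (hξ : Irrational ξ) (hζ : Irrational ζ)
    (g : Matrix (Fin 2) (Fin 2) ℝ) (G : Matrix ρ ρ ℝ) (hg : g 0 0 = α * g 0 1)
    (h : TwoSided ξ ζ α) {k : ℕ} {ν : ℝ} (hν0 : 0 < ν)
    (hν : ∀ x : Mon (Fin 2) k × ρ → ℤ, x ≠ 0 → ν ≤ |formProd (symP k g ⊗ₖ G) x|)
    (P : MvPolynomial (Fin 2) ℤ) (hP : P.IsHomogeneous k) (hP0 : P ≠ 0) (d : Fin 2 →₀ ℕ)
    (hd : d.degree = k) :
    coeff d (subst !![ξ, 1; 1, -ζ] (MvPolynomial.map (Int.castRingHom ℝ) P)) ≠ 0 := by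
  intro h0
  obtain ⟨l, hl, h1, h2⟩ := two_rows hα hξ hζ g hg h
  refine coeff_ne hν0 hν hl hP hP0 d hd ?_
  have h3 : l = Matrix.diagonal ![l 0 1, l 1 0] * !![ξ, 1; 1, -ζ] := by
    ext i j
    rw [Matrix.diagonal_mul]
    fin_cases i <;> fin_cases j
    · simp [h1, mul_comm]
    · simp
    · simp
    · simp [h2, mul_comm]
  rw [h3, subst_mul, AlgHom.comp_apply, coeff_diag _ (subst_hom _ (hP.map _)) d hd, h0, mul_zero]

/-- the homogenisation of an integral polynomial -/
noncomputable def homog (k : ℕ) (p : Polynomial ℤ) (a b : Fin 2) (s : ℤ) :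
    MvPolynomial (Fin 2) ℤ :=
  ∑ j ∈ Finset.range (k + 1), C (s ^ j * p.coeff j) * (X a ^ j * X b ^ (k - j))

lemma homog_hom (k : ℕ) (p : Polynomial ℤ) (a b : Fin 2) (s : ℤ) :
    (homog k p a b s).IsHomogeneous k := by
  refine IsHomogeneous.sum _ _ _ fun j hj => ?_
  have h1 : ((C (s ^ j * p.coeff j) : MvPolynomial (Fin 2) ℤ) * (X a ^ j * X b ^ (k - j))).IsHomogeneous
      (0 + (1 * j + 1 * (k - j))) :=
    (isHomogeneous_C _ _).mul (((isHomogeneous_X _ _).pow _).mul ((isHomogeneous_X _ _).pow _))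
  have h2 : 0 + (1 * j + 1 * (k - j)) = k := by
    have := Finset.mem_range.1 hj
    omega
  rwa [h2] at h1

lemma homog_eval (k : ℕ) (p : Polynomial ℤ) (_hk : p.natDegree ≤ k) (a b : Fin 2) (s : ℤ)
    (v : Fin 2 → ℝ) :
    eval v (MvPolynomial.map (Int.castRingHom ℝ) (homog k p a b s))
      = ∑ j ∈ Finset.range (k + 1), (s : ℝ) ^ j * p.coeff j * (v a ^ j * v b ^ (k - j)) := by
  rw [homog, map_sum, map_sum]
  refine Finset.sum_congr rfl fun j _ => ?_
  simp

lemma homog_ne {k : ℕ} {p : Polynomial ℤ} (hp : p ≠ 0) (hk : p.natDegree ≤ k) {a b : Fin 2}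
    (hab : a ≠ b) {s : ℤ} (hs : s ≠ 0) : homog k p a b s ≠ 0 := by
  intro h
  -- evaluate at a real point
  have h1 : ∀ t : ℝ, ∑ j ∈ Finset.range (k + 1), (s : ℝ) ^ j * p.coeff j * t ^ j = 0 := by
    intro t
    have h2 := homog_eval k p hk a b s (fun i => if i = a then t else 1)
    rw [h, map_zero, map_zero] at h2
    rw [h2]
    refine Finset.sum_congr rfl fun j _ => ?_
    rw [if_pos rfl, if_neg hab.symm, one_pow, mul_one]
  have h3 : (p.map (Int.castRingHom ℝ)) = 0 := by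
    refine Polynomial.funext fun t => ?_
    have hs' : (s : ℝ) ≠ 0 := by exact_mod_cast hs
    have h4 := h1 (t / s)
    rw [Polynomial.eval_zero, Polynomial.eval_eq_sum_range' (n := k + 1)
      (lt_of_le_of_lt Polynomial.natDegree_map_le (by omega)), ← h4]
    refine Finset.sum_congr rfl fun j _ => ?_
    rw [Polynomial.coeff_map, div_pow]
    have : (s : ℝ) ^ j ≠ 0 := pow_ne_zero _ hs'
    field_simp
    simp only [eq_intCast]
    ring
  exact hp (Polynomial.map_injective _ (RingHom.injective_int _) (by rw [h3, Polynomial.map_zero]))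

/-- numbers whose initial blocks occur are not algebraic of degree at most `k` -/
theorem not_alg {α ξ : ℝ} (hα : Irrational α) (hξ : Irrational ξ)
    (g : Matrix (Fin 2) (Fin 2) ℝ) (G : Matrix ρ ρ ℝ) (i₀ : Fin 2) (hg : g i₀ 0 = α * g i₀ 1)
    (h : Occ ξ α) {k : ℕ} {ν : ℝ} (hν0 : 0 < ν)
    (hν : ∀ x : Mon (Fin 2) k × ρ → ℤ, x ≠ 0 → ν ≤ |formProd (symP k g ⊗ₖ G) x|)
    (p : Polynomial ℤ) (hp : p ≠ 0) (hk : p.natDegree ≤ k) : Polynomial.aeval ξ p ≠ 0 := by
  intro h0
  have h0' : ∑ j ∈ Finset.range (k + 1), (p.coeff j : ℝ) * ξ ^ j = 0 := by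
    rw [← h0, Polynomial.aeval_eq_sum_range' (n := k + 1) (by omega)]
    refine Finset.sum_congr rfl fun j _ => ?_
    rw [zsmul_eq_mul]
  obtain ⟨l, hl, i, hi⟩ := occ_row hα hξ g i₀ hg h
  rcases hi with hi | hi
  · refine row_ne hν0 hν hl (homog_hom k p 0 1 1) (homog_ne hp hk (by decide) one_ne_zero) i ?_
    rw [homog_eval k p hk]
    rw [← mul_zero (l i 1 ^ k), ← h0', Finset.mul_sum]
    refine Finset.sum_congr rfl fun j hj => ?_
    have hjk : k = j + (k - j) := by
      have := Finset.mem_range.1 hj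
      omega
    have key : ∀ u v : ℝ, u = ξ * v → ((1 : ℤ) : ℝ) ^ j * p.coeff j * (u ^ j * v ^ (k - j))
        = v ^ k * (p.coeff j * ξ ^ j) := by
      intro u v huv
      have hv : v ^ k = v ^ j * v ^ (k - j) := by rw [← pow_add, ← hjk]
      rw [huv, hv, Int.cast_one, one_pow, mul_pow]
      ring
    exact key _ _ hi
  · refine row_ne hν0 hν hl (homog_hom k p 1 0 (-1)) (homog_ne hp hk (by decide) (by decide)) i ?_
    rw [homog_eval k p hk]
    rw [← mul_zero (l i 0 ^ k), ← h0', Finset.mul_sum]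
    refine Finset.sum_congr rfl fun j hj => ?_
    have hjk : k = j + (k - j) := by
      have := Finset.mem_range.1 hj
      omega
    have key : ∀ u v : ℝ, u = -(ξ * v) → ((-1 : ℤ) : ℝ) ^ j * p.coeff j * (u ^ j * v ^ (k - j))
        = v ^ k * (p.coeff j * ξ ^ j) := by
      intro u v huv
      have hv : v ^ k = v ^ j * v ^ (k - j) := by rw [← pow_add, ← hjk]
      have h5 : (-1 : ℝ) ^ j * (-1) ^ j = 1 := by rw [← mul_pow]; norm_num
      have h6 : (-(ξ * v)) ^ j = (-1) ^ j * (ξ ^ j * v ^ j) := by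
        rw [← mul_pow, ← mul_pow]; ring
      rw [huv, hv, h6]
      push_cast
      linear_combination (p.coeff j * (ξ ^ j * v ^ j) * v ^ (k - j)) * h5
    exact key _ _ hi

end binary

end Pool.Agent.U541.TC
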